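import Pool.Agent.K.MP_4f3dfd_co.C9

set_option autoImplicit false

theorem Pool.Agent.Results.MP_4f3dfd_co.CuspQuarter.result :
    ∃ C : ℝ, ∀ n m : ℕ, 3 ≤ n → n ∣ 3 * m → n.choose 3 ≤ 4 * m → m ≤ n.choose 3 →
    ∃ f : ℕ, IsLeast {k : ℕ | ∃ J : Finset (Finset (Fin n)), (∀ X ∈ J, X.card = 3) ∧
        J.card = m ∧ (∃ d : ℕ, ∀ i : Fin n, (J.filter (fun X => i ∈ X)).card = d) ∧
        (Finset.shadow J).card = k} f ∧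
      |(f : ℝ) / (n.choose 2 : ℝ) -
          (1 / 2 + 2 * (2 / 3 * ((m : ℝ) / (n.choose 3 : ℝ) - 1 / 4)) ^ (3 / 4 : ℝ))| ≤
        C * (((m : ℝ) / (n.choose 3 : ℝ) - 1 / 4) ^ (5 / 6 : ℝ) + (n : ℝ) ^ (-(3 / 4) : ℝ)) :=
  Pool.Agent.P.MP_4f3dfd_co.cusp
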