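import Pool.Agent.K.MP_4f3dfd_co.C13

set_option autoImplicit false

theorem Pool.Agent.Results.MP_4f3dfd_co.ExcessAll.result :
    ∃ C : ℝ, 0 < C ∧ ∀ ε : ℝ, 0 < ε → ∃ K : ℕ, ∀ n c k m m' x y : ℕ,
      c + k = n → m + m' = n.choose c → 1 ≤ m → 1 ≤ m' → n ∣ c * m → x < n → y < n →
      ∀ g : ℕ → ℕ → ℕ → ℝ, (∀ j s z : ℕ, g j s z = min ((n : ℝ) / (n - z))
        (((n.choose c : ℝ) / s) ^ (Real.log j / Real.log (n / j))) * z.choose (j - 1)) →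
      g c m (x - 1) ≤ c * m / n → c * m / n < g c m x →
      g k m' (y - 1) ≤ k * m' / n → k * m' / n < g k m' y →
      ∃ f : ℕ, IsLeast {s : ℕ | ∃ J : Finset (Finset (Fin n)), (∀ X ∈ J, X.card = c) ∧
          J.card = m ∧ (∃ d : ℕ, ∀ i : Fin n, (J.filter (fun X => i ∈ X)).card = d) ∧
          (Finset.shadow J).card = s} f ∧
        ∀ B E F : ℝ, B = (k + 1) * f - c * m →
          E = c * m * ((n : ℝ) - x) / ((x : ℝ) - c + 2) → F = m' * ((n : ℝ) - y) →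
          (m ≤ m' → E ≤ C * B ∧ B ≤ C * E) ∧ (m' ≤ m → F ≤ C * B ∧ B ≤ C * F) ∧
          ((m : ℝ) ≤ max ((c : ℝ) * k / n ^ 2) (1 / c) ^ K * n.choose c → c + K ≤ x →
            |B - E| ≤ ε * E) ∧
          ((m' : ℝ) ≤ max ((c : ℝ) * k / n ^ 2) (1 / k) ^ K * n.choose c → |B - F| ≤ ε * F)
    := by
  obtain ⟨C, hC, h⟩ := Pool.Agent.P.MP_4f3dfd_co.Ex.masterU
  refine ⟨C, hC, fun ε hε => ?_⟩
  obtain ⟨K, h⟩ := h ε hε
  refine ⟨K, fun n c k m m' x y hk hm hm0 hm0' hd hx hy g hg h1 h2 h3 h4 => ?_⟩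
  have hsym : n.choose k = n.choose c := by
    rw [← Nat.choose_symm (by omega : c ≤ n)]; congr 1; omega
  obtain ⟨hc, hcn⟩ := Pool.Agent.P.MP_4f3dfd_co.Ex.range_c hm0 (by omega) hd
  have hd' : n ∣ k * m' := by
    have e1 : n ∣ c * (m + m') := by
      rw [hm]
      obtain ⟨n', rfl⟩ : ∃ n', n = n' + 1 := ⟨n - 1, by omega⟩
      obtain ⟨c', rfl⟩ : ∃ c', c = c' + 1 := ⟨c - 1, by omega⟩
      exact ⟨n'.choose c', by rw [mul_comm, ← Nat.add_one_mul_choose_eq]⟩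
    rw [mul_add] at e1
    have e2 := (Nat.dvd_add_right hd).1 e1
    have e3 : n ∣ c * m' + k * m' := by rw [← add_mul, hk]; exact Dvd.intro _ rfl
    exact (Nat.dvd_add_right e2).1 e3
  obtain ⟨d, hd⟩ := hd
  obtain ⟨d', hd'⟩ := hd'
  rw [mul_comm n] at hd hd'
  rw [hg] at h1 h2 h3 h4
  have p1 := Pool.Agent.P.MP_4f3dfd_co.Ex.par_of hc hcn hm0 (by omega) hd hx h1 h2
  rw [← hsym] at h3 h4
  have p2 := Pool.Agent.P.MP_4f3dfd_co.Ex.par_of (by omega) (by omega) hm0' (by omega) hd' hy h3 h4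
  obtain ⟨f, hf, a1, a2, a3, a4⟩ := h n c k m m' d d' x y hk hm hd hd' p1 p2
  have hkR : (k : ℝ) = n - c := by rw [← hk]; push_cast; ring
  have hcR : (n : ℝ) - k = c := by rw [hkR]; ring
  refine ⟨f, hf, fun B E F hB hE hF => ?_⟩
  rw [hkR] at hB
  subst hB hE hF
  refine ⟨fun h => a1 (by omega), fun h => a2 (by omega), fun h => a3 (by rwa [← hkR]),
    fun h => a4 (by rwa [hcR, hsym, mul_comm (k : ℝ)])⟩
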