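import Pool.Agent.K.MP_4f3dfd_co.C3

set_option autoImplicit false

theorem Pool.Agent.Results.MP_4f3dfd_co.TwoLinks.result :
    ∃ C : ℝ, ∀ ε : ℝ, 0 < ε → ∃ K : ℕ, ∀ n c m d x : ℕ, 1 ≤ m → m ≤ n.choose c →
    c < n → c * m = d * n → (x - 1).choose (c - 1) ≤ d → d < x.choose (c - 1) →
    ∃ f g h : ℕ, IsLeast {k : ℕ | ∃ J : Finset (Finset (Fin n)), (∀ X ∈ J, X.card = c) ∧
        J.card = m ∧ (∃ e : ℕ, ∀ i : Fin n, (J.filter (fun X => i ∈ X)).card = e) ∧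
        (Finset.shadow J).card = k} f ∧
      IsLeast {k : ℕ | ∃ A : Finset (Finset (Fin n)), (∀ X ∈ A, X.card = c - 1) ∧
        A.card = d ∧ (Finset.shadow A).card = k} g ∧
      IsLeast {k : ℕ | ∃ A : Finset (Finset (Fin n)), (∀ X ∈ A, X.card = c) ∧
        A.card = m - d ∧ (Finset.shadow A).card = k} h ∧
      n * g ≤ (c - 1) * f ∧ n * h ≤ (n - c + 1) * f ∧ ((c : ℝ) - 1) * f ≤ C * (n * g) ∧
      (((K ≤ c ∧ c + K ≤ x) ∨ (c + K ≤ x ∧ K * x ≤ n) ∨ (K ≤ c ∧ K * x ≤ n) ∨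
        (c + K ≤ n ∧ K * (n - c) ≤ n) ∨
        ∃ i : ℕ, c + i + 2 ≤ n ∧ (i = 0 ∨ K * (c + i).choose i ≤ min d (m - d)) ∧
          K * min d (m - d) ≤ (c + i + 1).choose (i + 1)) →
        max ((n : ℝ) * g / (c - 1)) (n * h / (n - c)) ≤ (1 + ε) * f ∧
        (f : ℝ) ≤ (1 + ε) * max ((n : ℝ) * g / (c - 1)) (n * h / (n - c))) :=
  Pool.Agent.P.MP_4f3dfd_co.Off.master
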