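import Pool.Agent.K.MP_4f3dfd_co.C15

set_option autoImplicit false

theorem Pool.Agent.Results.MP_4f3dfd_co.Windows.result :
    ∀ ε : ℝ, 0 < ε → ∃ K : ℕ, ∀ n c m d j : ℕ,
      (K ≤ c ∧ c + K ≤ n) ∨ (K ≤ j ∧ K * (c + j) ≤ n) → 1 ≤ m → m ≤ n.choose c →
      c * m = d * n → 1 ≤ j →
      (j = 1 ∨ (c + j - 2).choose (j - 1) * (c + j - 1).choose j ≤ min d (m - d) ^ 2) →
      min d (m - d) ^ 2 < (c + j - 1).choose j * (c + j).choose (j + 1) →
      ∃ f : ℕ, IsLeast {k : ℕ | ∃ J : Finset (Finset (Fin n)), (∀ X ∈ J, X.card = c) ∧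
          J.card = m ∧ (∃ e : ℕ, ∀ i : Fin n, (J.filter (fun X => i ∈ X)).card = e) ∧
          (Finset.shadow J).card = k} f ∧
        ∃ S : ℝ, IsGreatest {s : ℝ | ∃ t : Finset (Fin n) → ℝ, ((∀ B, 0 ≤ t B ∧ t B ≤ 1) ∧
            ∀ v : Fin n, ((c + j).choose j : ℝ) *
                ∑ B ∈ Finset.powersetCard (c + j) Finset.univ with v ∈ B, t B ≤ d ∧
              ((c + j).choose j : ℝ) *
                ∑ B ∈ Finset.powersetCard (c + j) Finset.univ with v ∉ B, t B ≤ m - d) ∧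
            s = ∑ B ∈ Finset.powersetCard (c + j) Finset.univ,
              ((1 - t B) ^ (1 + 1 / (j : ℝ)) - 1 + (1 + 1 / (j : ℝ)) * t B)} S ∧
          |(f : ℝ) - (c * m / j - ((c + j).choose (j + 1) : ℝ) * S)| ≤ ε * f :=
  fun _ hε => Pool.Agent.P.MP_4f3dfd_co.Win.master hε
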